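import Mathlib
import Pool.Agent.Lib.Pabc1.SCover

open Finset Filter Topology

namespace Pool.Agent.Lib.Pabc8

open Pool.Agent.Lib.Pabc2 Pool.Agent.Lib.Pabc1

/-- The weight of a label. -/
noncomputable def wt (t : ℕ × ℕ) (l : Fin 3) : ℝ :=
  ∑ p ∈ (N t).primeFactors.filter (fun p => lab t p = l), Real.log (p : ℝ)

/-- The mass of a label. -/
noncomputable def ms (t : ℕ × ℕ) (l : Fin 3) : ℝ :=
  ∑ p ∈ (N t).primeFactors.filter (fun p => lab t p = l), u t p

/-- The total weight. -/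
noncomputable def tw (t : ℕ × ℕ) : ℝ := ∑ p ∈ (N t).primeFactors, Real.log (p : ℝ)

theorem wt_nonneg (t : ℕ × ℕ) (l : Fin 3) : 0 ≤ wt t l :=
  Finset.sum_nonneg (fun p _ => Real.log_natCast_nonneg p)

theorem sum3 (f : Fin 3 → ℝ) {i j s : Fin 3} (hij : i ≠ j) (his : i ≠ s) (hjs : j ≠ s) :
    f 0 + f 1 + f 2 = f i + f j + f s := by
  fin_cases i <;> fin_cases j <;> fin_cases s <;> simp_all <;> ring

theorem wt_sum (t : ℕ × ℕ) {i j s : Fin 3} (hij : i ≠ j) (his : i ≠ s) (hjs : j ≠ s) :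
    tw t = wt t i + wt t j + wt t s := by
  have h := Finset.sum_fiberwise (N t).primeFactors (lab t) (fun p : ℕ => Real.log (p : ℝ))
  rw [Fin.sum_univ_three] at h
  rw [← sum3 (wt t) hij his hjs]
  exact h.symm

theorem ms_sum (t : ℕ × ℕ) {i j s : Fin 3} (hij : i ≠ j) (his : i ≠ s) (hjs : j ≠ s) :
    ∑ p ∈ (N t).primeFactors, u t p = ms t i + ms t j + ms t s := by
  have h := Finset.sum_fiberwise (N t).primeFactors (lab t) (u t)
  rw [Fin.sum_univ_three] at h
  rw [← sum3 (ms t) hij his hjs]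
  exact h.symm

/-- The conclusion of the covering lemmas. -/
def Cov (δ : ℝ) (t : ℕ × ℕ) (w : ℝ) : Prop :=
  ∃ S ⊆ (N t).primeFactors, ∑ p ∈ S, Real.log (p : ℝ) ≤ w ∧
    (∑ p ∈ (N t).primeFactors \ S, u t p ≤ 1 - δ ∨
      ∃ (R : ℕ) (l : Fin 3), RootD δ S R l t ∧ δ ≤ u t R)

/-- Two labels of large mass. -/
theorem cover_pair (k : ℕ) {δ : ℝ} (hδ0 : 0 < δ) {t : ℕ × ℕ} (hI : IsT t) {i j s : Fin 3}
    (hij : i ≠ j) (his : i ≠ s) (hjs : j ≠ s) (hmi : δ * (2 * k + 1) ≤ ms t i)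
    (hmj : δ * (2 * k + 1) ≤ ms t j) :
    Cov δ t ((1 / 2 + 1 / ((k : ℝ) + 1)) * tw t + 1 / 2 * wt t s) := by
  classical
  obtain ⟨M1, hM1, hmM1, r1, hr1, hc1⟩ := label_data k hδ0 _ hmi
  obtain ⟨M2, hM2, hmM2, r2, hr2, hc2⟩ := label_data k hδ0 _ hmj
  obtain ⟨S12, hS12, hw12, ha12⟩ := pairS hI hij hM2 hmM2 hr1
  obtain ⟨S21, hS21, hw21, ha21⟩ := pairS hI hij.symm hM1 hmM1 hr2
  change _ = tw t - r1 - wt t j + _ at hw12
  change _ = tw t - r2 - wt t i + _ at hw21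
  have hi := wt_nonneg t i
  have hj := wt_nonneg t j
  have hs := wt_nonneg t s
  have hsum := wt_sum t hij his hjs
  set e : ℝ := 1 / ((k : ℝ) + 1) with he
  have he0 : 0 < e := by positivity
  change _ ≤ e * wt t i at hc1
  change _ ≤ e * wt t j at hc2
  have heL : e * wt t i + e * wt t j + e * wt t s = e * tw t := by rw [hsum]; ring
  have heL0 : 0 ≤ e * wt t s := by positivity
  have heL1 : 0 ≤ e * tw t := by
    have : 0 ≤ tw t := by linarith
    positivity
  have hexp : (1 / 2 + e) * tw t = 1 / 2 * tw t + e * tw t := by ring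
  unfold Cov
  rw [hexp]
  rcases le_total (∑ p ∈ S12, Real.log (p : ℝ)) (∑ p ∈ S21, Real.log (p : ℝ)) with h | h
  · exact ⟨S12, hS12, by linarith, ha12⟩
  · exact ⟨S21, hS21, by linarith, ha21⟩

/-- Keep the label `s` and a part `Q` of the label `j`. -/
theorem keep {δ : ℝ} {t : ℕ × ℕ} {s j : Fin 3} (hsj : s ≠ j)
    {Q : Finset ℕ} (hQ : Q ⊆ (N t).primeFactors.filter (fun p => lab t p = j))
    (hm : ∑ p ∈ (N t).primeFactors, u t p - ms t s - ∑ p ∈ Q, u t p ≤ 1 - δ) :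
    Cov δ t (wt t s + ∑ p ∈ Q, Real.log (p : ℝ)) := by
  classical
  set PF := (N t).primeFactors with hPF
  set Ps := PF.filter (fun p => lab t p = s) with hPs
  have hd : Disjoint Ps Q := by
    rw [Finset.disjoint_left]
    intro p hp hp2
    have h1 := (Finset.mem_filter.mp hp).2
    have h2 := (Finset.mem_filter.mp (hQ hp2)).2
    exact hsj (h1.symm.trans h2)
  have hsub : Ps ∪ Q ⊆ PF :=
    Finset.union_subset (Finset.filter_subset _ _) (hQ.trans (Finset.filter_subset _ _))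
  refine ⟨Ps ∪ Q, hsub, ?_, Or.inl ?_⟩
  · rw [Finset.sum_union hd]
    exact le_rfl
  · have h1 := Finset.sum_sdiff hsub (f := u t)
    rw [Finset.sum_union hd] at h1
    have h2 : ∑ p ∈ Ps, u t p = ms t s := rfl
    linarith

/-- The label `0` has small mass and the label `s ≠ 0` has small weight. -/
theorem cover_light {δ : ℝ} (hδ0 : 0 < δ) (hδ1 : δ ≤ 1 / 100) {t : ℕ × ℕ} (hI : IsT t)
    {s j : Fin 3} (hs0 : (0 : Fin 3) ≠ s) (hj0 : (0 : Fin 3) ≠ j) (hsj : s ≠ j)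
    (hm0 : ms t 0 ≤ 1 / 4) (hms : 9 / 10 ≤ ms t s) (hmj : 9 / 10 ≤ ms t j) :
    Cov δ t (1 / 2 * tw t + 1 / 2 * wt t s) := by
  classical
  have hle : ms t j ≤ 1 := sum_lab_le_one hI j
  have hsum := wt_sum t hj0 hs0 hsj.symm
  have hmsum := ms_sum t hj0 hs0 hsj.symm
  have h0 := wt_nonneg t 0
  set κ : ℝ := 1 / 4 + 2 * δ with hκ
  by_cases hR : ∃ R ∈ (N t).primeFactors.filter (fun p => lab t p = j), κ ≤ u t R
  · obtain ⟨R, hR, huR⟩ := hR
    obtain ⟨S1, hS1, hw1, ha1⟩ := keep (δ := δ) (t := t) hsj (Q := {R})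
      (Finset.singleton_subset_iff.mpr hR) (by rw [Finset.sum_singleton]; linarith)
    obtain ⟨S2, hS2, hw2, ha2⟩ := pairS hI (δ := δ) hsj.symm
      (Finset.Subset.refl ((N t).primeFactors.filter (fun p => lab t p = s))) (by
        change δ ≤ ms t s
        linarith) (r1 := Real.log R) (Or.inr ⟨R, hR, by linarith, rfl⟩)
    change _ = tw t - Real.log R - wt t s + wt t s at hw2
    rw [Finset.sum_singleton] at hw1
    rcases le_total (∑ p ∈ S1, Real.log (p : ℝ)) (∑ p ∈ S2, Real.log (p : ℝ)) with h | h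
    · exact ⟨S1, hS1, by linarith, ha1⟩
    · exact ⟨S2, hS2, by linarith, ha2⟩
  · push Not at hR
    have hκ0 : 0 < κ := by linarith
    obtain ⟨Q, hQ, h1, h2⟩ := greedy_add hκ0 (u t) (fun p => Real.log (p : ℝ)) 1
      ((N t).primeFactors.filter (fun p => lab t p = j)) (fun p hp => (hR p hp).le) (by
        change _ ≤ ms t j
        push_cast
        linarith)
    change _ ≤ wt t j at h2
    push_cast at h2
    obtain ⟨S1, hS1, hw1, ha1⟩ := keep (δ := δ) (t := t) hsj (Q := Q) hQ (by linarith)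
    exact ⟨S1, hS1, by linarith, ha1⟩

/-- Masses of the two larger members. -/
theorem ms_ge {t : ℕ × ℕ} (hI : IsT t) (hbig : 200 ≤ ht t) {l : Fin 3} (hl : (0 : Fin 3) ≠ l) :
    9 / 10 ≤ ms t l := by
  have H := ht_pos hI
  have hl2 := log_two_bd
  have h12 : l = 1 ∨ l = 2 := by omega
  unfold ms
  rw [sum_lab_eq hI l, le_div_iff₀ H]
  rcases h12 with rfl | rfl
  · have h1 := log_b_ge hI
    have h2 : comp t 1 = t.2 := by simp [comp]
    rw [h2]
    linarith
  · have h2 : comp t 2 = t.1 + t.2 := by simp [comp]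
    have h3 : Real.log ((t.1 + t.2 : ℕ) : ℝ) = ht t := by
      unfold ht
      push_cast
      rfl
    rw [h2, h3]
    linarith

/-- The covering lemma: for every label `s` there is a suitable set of weight at most half of the
total weight plus half of the weight of `s`. -/
theorem coverR (k : ℕ) {δ : ℝ} (hδ : δ * (2 * k + 1) = 1 / 4) (hδ0 : 0 < δ) (hδ1 : δ ≤ 1 / 100)
    {t : ℕ × ℕ} (hI : IsT t) (hbig : 200 ≤ ht t) (s : Fin 3) :
    Cov δ t ((1 / 2 + 1 / ((k : ℝ) + 1)) * tw t + 1 / 2 * wt t s) := by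
  have hge : ∀ l : Fin 3, (0 : Fin 3) ≠ l → δ * (2 * k + 1) ≤ ms t l := by
    intro l hl
    have := ms_ge hI hbig hl
    rw [hδ]
    linarith
  by_cases hs : s = 0
  · subst hs
    exact cover_pair k hδ0 hI (i := 1) (j := 2) (by decide) (by decide) (by decide)
      (hge 1 (by decide)) (hge 2 (by decide))
  · obtain ⟨j, hsj, hj0⟩ := exists_third s 0 hs
    have hs0 : (0 : Fin 3) ≠ s := fun h => hs h.symm
    have h0j : (0 : Fin 3) ≠ j := hj0.symm
    by_cases h : δ * (2 * k + 1) ≤ ms t 0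
    · exact cover_pair k hδ0 hI (i := 0) (j := j) h0j hs0 hsj.symm h (hge j h0j)
    · push Not at h
      rw [hδ] at h
      obtain ⟨S, hS, hw, ha⟩ := cover_light hδ0 hδ1 hI hs0 h0j hsj h.le (ms_ge hI hbig hs0)
        (ms_ge hI hbig h0j)
      refine ⟨S, hS, hw.trans ?_, ha⟩
      have htw : 0 ≤ tw t := Finset.sum_nonneg (fun p _ => Real.log_natCast_nonneg p)
      have : 0 ≤ 1 / ((k : ℝ) + 1) * tw t := by positivity
      linarith

end Pool.Agent.Lib.Pabc8
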