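import Mathlib
import Pool.Agent.Lib.Pabc1.SLower
import Pool.Agent.Lib.Pabc2.Final2

open Finset Filter Topology

namespace Pool.Agent.Lib.Pabc8

open Pool.Agent.Lib.Pabc2 Pool.Agent.Lib.Pabc1

/-- The coprime pairs in a rectangle. -/
def copR (m1 m2 : ℕ) : Finset (ℕ × ℕ) :=
  ((Finset.Icc 1 m1) ×ˢ (Finset.Icc 1 m2)).filter (fun t => Nat.Coprime t.1 t.2)

/-- At least half of the pairs are coprime. -/
theorem copR_card (m1 m2 : ℕ) : (m1 : ℝ) * m2 / 2 ≤ (copR m1 m2).card := by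
  classical
  set A : Finset (ℕ × ℕ) := (Finset.Icc 1 m1) ×ˢ (Finset.Icc 1 m2) with hA
  have hcardA : A.card = m1 * m2 := by
    rw [hA, Finset.card_product, Nat.card_Icc, Nat.card_Icc]
    simp
  have hsplit := Finset.card_filter_add_card_filter_not (s := A)
    (fun t : ℕ × ℕ => Nat.Coprime t.1 t.2)
  have hnon : A.filter (fun t => ¬ Nat.Coprime t.1 t.2) ⊆
      (Nat.primesLE m1).biUnion (fun p =>
        ((Finset.Icc 1 m1).filter (fun a => p ∣ a)) ×ˢ
          ((Finset.Icc 1 m2).filter (fun a => p ∣ a))) := by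
    intro t ht
    rw [Finset.mem_filter, hA, Finset.mem_product] at ht
    obtain ⟨⟨h1, h2⟩, h3⟩ := ht
    obtain ⟨p, hp, hd1, hd2⟩ := Nat.Prime.not_coprime_iff_dvd.mp h3
    rw [Finset.mem_biUnion]
    refine ⟨p, ?_, ?_⟩
    · rw [Nat.mem_primesLE]
      have h4 := Finset.mem_Icc.mp h1
      exact ⟨(Nat.le_of_dvd (by omega) hd1).trans h4.2, hp⟩
    · rw [Finset.mem_product, Finset.mem_filter, Finset.mem_filter]
      exact ⟨⟨h1, hd1⟩, ⟨h2, hd2⟩⟩
  have hcardp : ∀ m p : ℕ, (((Finset.Icc 1 m).filter (fun a => p ∣ a)).card : ℝ) ≤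
      (m : ℝ) / p := by
    intro m p
    have h1 : ((Finset.Icc 1 m).filter (fun a => p ∣ a)).card = m / p := by
      have := Nat.Ioc_filter_dvd_card_eq_div m p
      rw [← this]
      congr 1
    rw [h1]
    exact Nat.cast_div_le
  have h1 : ((A.filter (fun t => ¬ Nat.Coprime t.1 t.2)).card : ℝ) ≤ (m1 : ℝ) * m2 / 2 := by
    calc ((A.filter (fun t => ¬ Nat.Coprime t.1 t.2)).card : ℝ) ≤
        (((Nat.primesLE m1).biUnion (fun p =>
        ((Finset.Icc 1 m1).filter (fun a => p ∣ a)) ×ˢ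
          ((Finset.Icc 1 m2).filter (fun a => p ∣ a)))).card : ℝ) := by
          exact_mod_cast Finset.card_le_card hnon
      _ ≤ ∑ p ∈ Nat.primesLE m1, ((((Finset.Icc 1 m1).filter (fun a => p ∣ a)) ×ˢ
          ((Finset.Icc 1 m2).filter (fun a => p ∣ a))).card : ℝ) := by
          exact_mod_cast Finset.card_biUnion_le
      _ ≤ ∑ p ∈ Nat.primesLE m1, (m1 : ℝ) * m2 * (1 / ((p : ℝ) ^ 2)) := by
          apply Finset.sum_le_sum
          intro p hp
          have h2 := hcardp m1 p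
          have h3 := hcardp m2 p
          rw [Finset.card_product]
          push_cast
          calc (((Finset.Icc 1 m1).filter (fun a => p ∣ a)).card : ℝ) *
              ((Finset.Icc 1 m2).filter (fun a => p ∣ a)).card ≤ (m1 : ℝ) / p * ((m2 : ℝ) / p) := by
                gcongr
            _ = (m1 : ℝ) * m2 * (1 / ((p : ℝ) ^ 2)) := by ring
      _ = (m1 : ℝ) * m2 * ∑ p ∈ Nat.primesLE m1, 1 / ((p : ℝ) ^ 2) := by rw [Finset.mul_sum]
      _ ≤ (m1 : ℝ) * m2 * (1 / 2) := by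
          apply mul_le_mul_of_nonneg_left (sum_prime_sq_le m1)
          positivity
      _ = (m1 : ℝ) * m2 / 2 := by ring
  have h2 : ((copR m1 m2).card : ℝ) + ((A.filter (fun t => ¬ Nat.Coprime t.1 t.2)).card : ℝ) =
      (m1 : ℝ) * m2 := by
    unfold copR
    rw [← hA]
    rw [hcardA] at hsplit
    exact_mod_cast hsplit
  linarith

/-- From counting ordered pairs `a ≤ b` with a symmetric property to counting triples. -/
theorem transferP (P : ℕ × ℕ → Prop) (hP : ∀ t, P t → P t.swap) (n : ℕ) (H B : ℝ)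
    (h : ∀ T : Finset (ℕ × ℕ), (∀ t ∈ T, IsT t ∧ rd t ≤ n ∧ ht t ≤ H ∧ P t) →
      2 * (T.card : ℝ) ≤ B)
    (S : Set (ℕ × ℕ × ℕ))
    (hS : ∀ t ∈ S, 0 < t.1 ∧ 0 < t.2.1 ∧ Nat.Coprime t.1 t.2.1 ∧ t.1 + t.2.1 = t.2.2 ∧
      ∏ p ∈ (t.1 * t.2.1 * t.2.2).primeFactors, p ≤ n ∧ Real.log t.2.2 ≤ H ∧ P (t.1, t.2.1)) :
    S.Finite ∧ (S.ncard : ℝ) ≤ B := by
  classical
  have key : ∀ T : Finset (ℕ × ℕ × ℕ), (∀ t ∈ T, t ∈ S) → (T.card : ℝ) ≤ B := by
    intro T hT
    have hinj : Set.InjOn (fun t : ℕ × ℕ × ℕ => (t.1, t.2.1)) T := by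
      rintro ⟨a, b, c⟩ h1 ⟨a', b', c'⟩ h2 heq
      simp only [Prod.mk.injEq] at heq
      obtain ⟨rfl, rfl⟩ := heq
      have e1 := (hS _ (hT _ h1)).2.2.2.1
      have e2 := (hS _ (hT _ h2)).2.2.2.1
      simp only at e1 e2
      rw [← e1, ← e2]
    set T' := T.image (fun t : ℕ × ℕ × ℕ => (t.1, t.2.1)) with hT'
    have hc : T'.card = T.card := Finset.card_image_of_injOn hinj
    have hT'p : ∀ t ∈ T', 0 < t.1 ∧ 0 < t.2 ∧ Nat.Coprime t.1 t.2 ∧ rd t ≤ n ∧ ht t ≤ H ∧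
        P t := by
      intro t ht'
      rw [hT', Finset.mem_image] at ht'
      obtain ⟨⟨a, b, c⟩, h1, rfl⟩ := ht'
      obtain ⟨g1, g2, g3, g4, g5, g6, g7⟩ := hS _ (hT _ h1)
      simp only at g1 g2 g3 g4 g5 g6 g7
      subst g4
      refine ⟨g1, g2, g3, g5, ?_, g7⟩
      unfold ht
      push_cast at g6
      exact g6
    have h1 := h (T'.filter (fun t => t.1 ≤ t.2)) (by
      intro t ht'
      rw [Finset.mem_filter] at ht'
      obtain ⟨a1, a2, a3, a4, a5, a6⟩ := hT'p t ht'.1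
      exact ⟨⟨a1, ht'.2, a3⟩, a4, a5, a6⟩)
    have h3 := h ((T'.filter (fun t => ¬ t.1 ≤ t.2)).image Prod.swap) (by
      intro t ht'
      rw [Finset.mem_image] at ht'
      obtain ⟨s, hs, rfl⟩ := ht'
      rw [Finset.mem_filter] at hs
      obtain ⟨a1, a2, a3, a4, a5, a6⟩ := hT'p s hs.1
      refine ⟨⟨a2, ?_, a3.symm⟩, ?_, ?_, hP s a6⟩
      · simp only [Prod.fst_swap, Prod.snd_swap]
        omega
      · unfold rd N at *
        simp only [Prod.fst_swap, Prod.snd_swap]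
        rw [mul_comm s.2 s.1, add_comm s.2 s.1]
        exact a4
      · unfold ht at *
        simp only [Prod.fst_swap, Prod.snd_swap]
        rw [add_comm]
        exact a5)
    rw [Finset.card_image_of_injective _ Prod.swap_injective] at h3
    have hcard : (T'.card : ℝ) = (T'.filter (fun t => t.1 ≤ t.2)).card +
        (T'.filter (fun t => ¬ t.1 ≤ t.2)).card := by
      exact_mod_cast (Finset.card_filter_add_card_filter_not (s := T') (fun t => t.1 ≤ t.2)).symm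
    have hc' : (T.card : ℝ) = T'.card := by exact_mod_cast hc.symm
    linarith
  have hfin : S.Finite := by
    by_contra hinf
    have hinf' : S.Infinite := hinf
    obtain ⟨T, hT, hc⟩ := hinf'.exists_subset_card_eq (⌊B⌋₊ + 1)
    have h1 := key T (fun t ht' => hT ht')
    rw [hc] at h1
    have := Nat.lt_floor_add_one B
    push_cast at h1
    linarith
  refine ⟨hfin, ?_⟩
  have h1 := key hfin.toFinset (fun t ht' => hfin.mem_toFinset.mp ht')
  rw [Set.ncard_eq_toFinset_card S hfin]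
  exact h1

/-- The lower bound in terms of real parameters. -/
theorem copR_real {A B : ℝ} (hA : 1 ≤ A) (hB : 4 ≤ B) :
    3 / 16 * (A * B) ≤ (copR ⌊A⌋₊ ⌊B⌋₊).card := by
  have h1 : A / 2 ≤ (⌊A⌋₊ : ℝ) := by
    have h2 := Nat.lt_floor_add_one A
    have h3 : (1 : ℝ) ≤ (⌊A⌋₊ : ℝ) := by
      exact_mod_cast Nat.le_floor (by exact_mod_cast hA)
    linarith
  have h2 : 3 / 4 * B ≤ (⌊B⌋₊ : ℝ) := by
    have h2 := Nat.lt_floor_add_one B
    linarith
  have h3 := copR_card ⌊A⌋₊ ⌊B⌋₊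
  have h4 : A / 2 * (3 / 4 * B) ≤ (⌊A⌋₊ : ℝ) * ⌊B⌋₊ := by
    apply mul_le_mul h1 h2 (by linarith) (by positivity)
  nlinarith

end Pool.Agent.Lib.Pabc8
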