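import Mathlib
import Pool.Agent.Lib.Pabc1.SCover
import Pool.Agent.Lib.Pabc2.Count2

open Finset Filter Topology

namespace Pool.Agent.Lib.Pabc8

open Pool.Agent.Lib.Pabc2 Pool.Agent.Lib.Pabc1

theorem Wt_one_le (x : ℕ) (hx : 0 < x) : Wt 1 x ≤ x := by
  rw [Wt_eq, one_pow, mul_one]
  exact_mod_cast Nat.le_of_dvd hx (Nat.prod_primeFactors_dvd x)

theorem Wt_one_ge (x : ℕ) : 1 ≤ Wt 1 x := by
  rw [Wt_eq, one_pow, mul_one]
  have : 0 < ∏ p ∈ x.primeFactors, p :=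
    Finset.prod_pos (fun p hp => (Nat.prime_of_mem_primeFactors hp).pos)
  exact_mod_cast this

theorem primeFactors_sub {n : ℕ} {t : ℕ × ℕ} (h : IsT t) (hr : rd t ≤ n) {x : ℕ} (hx : x ∣ N t) :
    x.primeFactors ⊆ Nat.primesLE n := by
  intro p hp
  have hp2 : p ∈ (N t).primeFactors := Nat.primeFactors_mono hx h.N_ne hp
  rw [Nat.mem_primesLE]
  refine ⟨le_trans ?_ hr, Nat.prime_of_mem_primeFactors hp⟩
  exact Nat.le_of_dvd (Finset.prod_pos (fun q hq => (Nat.prime_of_mem_primeFactors hq).pos))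
    (Finset.dvd_prod_of_mem (fun p => p) hp2)

/-- Pairs `(a, m)` with `m` one of the two larger members. -/
theorem pair_bound {n : ℕ} {η : ℝ} {x y z : ℝ} (hx : 0 < x) (hy : 0 < y)
    (hn : 1 ≤ n) (hxη : x ≤ (n : ℝ) ^ η) (hyz : y ≤ z) (h : x * y * z ≤ n) :
    x * y ≤ (n : ℝ) ^ ((1 + η) / 2) := by
  have hn0 : (0 : ℝ) < n := by exact_mod_cast hn
  have h1 : x * y ^ 2 ≤ n := by
    refine le_trans ?_ h
    have : x * y * y ≤ x * y * z := mul_le_mul_of_nonneg_left hyz (by positivity)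
    nlinarith
  have h2 : (x * y) ^ 2 ≤ (n : ℝ) ^ (1 + η) := by
    calc (x * y) ^ 2 = x * y ^ 2 * x := by ring
      _ ≤ n * (n : ℝ) ^ η := by gcongr
      _ = (n : ℝ) ^ (1 + η) := by rw [Real.rpow_add hn0, Real.rpow_one]
  have h3 : ((n : ℝ) ^ ((1 + η) / 2)) ^ 2 = (n : ℝ) ^ (1 + η) := by
    rw [← Real.rpow_natCast, ← Real.rpow_mul hn0.le]
    congr 1
    push_cast
    ring
  rw [← h3] at h2
  exact le_of_pow_le_pow_left₀ (by norm_num) (by positivity) h2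

/-- Triples of polynomially bounded height with a small member. -/
theorem count_poly (C η ε : ℝ) (hC : 0 ≤ C) (hε : 0 < ε) :
    ∀ᶠ n : ℕ in atTop, ∀ T : Finset (ℕ × ℕ),
      (∀ t ∈ T, IsT t ∧ rd t ≤ n ∧ ht t ≤ C * Real.log n ∧ (t.1 : ℝ) ≤ (n : ℝ) ^ η) →
      (T.card : ℝ) ≤ (n : ℝ) ^ ((1 + η) / 2 + ε) := by
  classical
  set σ : ℝ := ε / (4 * (C + 1)) with hσ
  have hσ0 : 0 < σ := by positivity
  set A : ℝ := 4 / (1 * σ) with hA
  have hA0 : 0 < A := by positivity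
  have hlim : Tendsto (fun n : ℕ => Real.log (n : ℝ)) atTop atTop :=
    Real.tendsto_log_atTop.comp tendsto_natCast_atTop_atTop
  filter_upwards [hlim.eventually (eventually_ge_atTop 4),
    ev_log_pow_le 2 (27 * A) (ε / 2) (by positivity), eventually_ge_atTop 1] with
    n h4 hlogpow hn1 T hT
  set x := Real.log (n : ℝ) with hx
  have hx0 : 0 < x := by linarith
  have hn0 : (0 : ℝ) < n := by exact_mod_cast hn1
  have hn1' : (1 : ℝ) ≤ n := by exact_mod_cast hn1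
  set Z : ℝ := (n : ℝ) ^ ((1 + η) / 2) with hZ
  have hZ0 : 0 ≤ Z := by positivity
  set T1 := T.filter (fun t => Wt 1 t.2 ≤ Wt 1 (t.1 + t.2)) with hT1
  set T2 := T.filter (fun t => ¬ Wt 1 t.2 ≤ Wt 1 (t.1 + t.2)) with hT2
  set f : ℕ × ℕ → ℕ × ℕ := fun t => (t.1, t.1 + t.2) with hf
  have hfinj : Function.Injective f := by
    rintro ⟨a, b⟩ ⟨a', b'⟩ h
    simp only [hf, Prod.mk.injEq] at h
    obtain ⟨h1, h2⟩ := h
    subst h1
    have : b = b' := by omega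
    rw [this]
  have hmul : ∀ t ∈ T, Wt 1 t.1 * Wt 1 t.2 * Wt 1 (t.1 + t.2) ≤ n := by
    intro t ht'
    obtain ⟨hI, hrd, _, _⟩ := hT t ht'
    rw [← Wt_N hI, Wt_eq, one_pow, mul_one]
    exact_mod_cast hrd
  have hbase : ∀ t ∈ T, Wt 1 t.1 ≤ (n : ℝ) ^ η := by
    intro t ht'
    exact (Wt_one_le _ (hT t ht').1.1).trans (hT t ht').2.2.2
  have hdvd : ∀ t : ℕ × ℕ, t.1 ∣ N t ∧ t.2 ∣ N t ∧ (t.1 + t.2) ∣ N t := by
    intro t
    unfold N
    exact ⟨Dvd.dvd.mul_right (Dvd.intro _ rfl) _, Dvd.dvd.mul_right (Dvd.intro_left _ rfl) _,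
      Dvd.intro_left _ rfl⟩
  have hlogc : ∀ t ∈ T, Real.log ((t.1 + t.2 : ℕ) : ℝ) ≤ C * x := by
    intro t ht'
    have := (hT t ht').2.2.1
    unfold ht at this
    push_cast
    exact this
  have hloga : ∀ t ∈ T, Real.log (t.1 : ℝ) ≤ C * x := by
    intro t ht'
    exact (log_a_le (hT t ht').1).trans (hT t ht').2.2.1
  have hlogb : ∀ t ∈ T, Real.log (t.2 : ℝ) ≤ C * x := by
    intro t ht'
    exact (log_b_le (hT t ht').1).trans (hT t ht').2.2.1
  have b1 := card_pairs_le n (s := 1) (σ := σ) (H := C * x) (Z := Z) one_pos hσ0 hZ0 T1 (by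
    intro t ht'
    rw [hT1, Finset.mem_filter] at ht'
    obtain ⟨hI, hrd, _, _⟩ := hT t ht'.1
    refine ⟨hI.1.ne', hI.pos2.ne', primeFactors_sub hI hrd (hdvd t).1,
      primeFactors_sub hI hrd (hdvd t).2.1, hloga t ht'.1, hlogb t ht'.1, ?_⟩
    exact pair_bound (Wt_pos one_pos _) (Wt_pos one_pos _) hn1 (hbase t ht'.1) ht'.2
      (hmul t ht'.1))
  have b2 := card_pairs_le n (s := 1) (σ := σ) (H := C * x) (Z := Z) one_pos hσ0 hZ0
    (T2.image f) (by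
    intro s hs
    rw [Finset.mem_image] at hs
    obtain ⟨t, ht', rfl⟩ := hs
    rw [hT2, Finset.mem_filter, not_le] at ht'
    obtain ⟨hI, hrd, _, _⟩ := hT t ht'.1
    simp only [hf]
    refine ⟨hI.1.ne', by have := hI.1; omega, primeFactors_sub hI hrd (hdvd t).1,
      primeFactors_sub hI hrd (hdvd t).2.2, hloga t ht'.1, hlogc t ht'.1, ?_⟩
    refine pair_bound (Wt_pos one_pos _) (Wt_pos one_pos _) hn1 (hbase t ht'.1) ht'.2.le ?_
    have := hmul t ht'.1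
    calc Wt 1 t.1 * Wt 1 (t.1 + t.2) * Wt 1 t.2 = Wt 1 t.1 * Wt 1 t.2 * Wt 1 (t.1 + t.2) := by
          ring
      _ ≤ n := this)
  rw [Finset.card_image_of_injective _ hfinj] at b2
  have hcard : (T.card : ℝ) = T1.card + T2.card := by
    exact_mod_cast (Finset.card_filter_add_card_filter_not (s := T)
      (fun t => Wt 1 t.2 ≤ Wt 1 (t.1 + t.2))).symm
  have hmert := mert_le n A hA0.le h4
  rw [← hx] at hmert
  have hσx : Real.exp (2 * (C * x) * σ) ≤ (n : ℝ) ^ (ε / 2) := by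
    rw [Real.rpow_def_of_pos hn0, ← hx]
    apply Real.exp_le_exp.mpr
    have h5 : 2 * C * σ ≤ ε / 2 := by
      rw [hσ, mul_div_assoc', div_le_iff₀ (by positivity)]
      nlinarith
    calc 2 * (C * x) * σ = 2 * C * σ * x := by ring
      _ ≤ ε / 2 * x := mul_le_mul_of_nonneg_right h5 hx0.le
      _ = x * (ε / 2) := by ring
  have hE : 0 ≤ Z * Real.exp (2 * (C * x) * σ) := by positivity
  calc (T.card : ℝ) = T1.card + T2.card := hcard
    _ ≤ 2 * (Z * Real.exp (2 * (C * x) * σ) *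
        Real.exp (A * ∑ p ∈ Nat.primesLE n, 1 / (p : ℝ))) := by linarith
    _ ≤ 2 * (Z * (n : ℝ) ^ (ε / 2) * x ^ (27 * A)) := by gcongr
    _ = Z * (n : ℝ) ^ (ε / 2) * (2 * x ^ (27 * A)) := by ring
    _ ≤ Z * (n : ℝ) ^ (ε / 2) * (n : ℝ) ^ (ε / 2) := by gcongr
    _ = (n : ℝ) ^ ((1 + η) / 2 + ε) := by
        rw [hZ, ← Real.rpow_add hn0, ← Real.rpow_add hn0]
        congr 1
        ring

end Pool.Agent.Lib.Pabc8
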