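import Mathlib
import Pool.Agent.Lib.Pabc8.Poly

open Finset Filter Topology

namespace Pool.Agent.Lib.Pabc8

open Pool.Agent.Lib.Pabc2 Pool.Agent.Lib.Pabc1

theorem prod3 (f : Fin 3 → ℝ) {i j s : Fin 3} (hij : i ≠ j) (his : i ≠ s) (hjs : j ≠ s) :
    f 0 * f 1 * f 2 = f i * f j * f s := by
  have hi : i = 0 ∨ i = 1 ∨ i = 2 := by omega
  have hj : j = 0 ∨ j = 1 ∨ j = 2 := by omega
  have hs : s = 0 ∨ s = 1 ∨ s = 2 := by omega
  rcases hi with rfl | rfl | rfl <;> rcases hj with rfl | rfl | rfl <;>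
    rcases hs with rfl | rfl | rfl <;>
    first
    | exact absurd rfl hij
    | exact absurd rfl his
    | exact absurd rfl hjs
    | ring

theorem comp_zero (t : ℕ × ℕ) : comp t 0 = t.1 := by simp [comp]
theorem comp_one (t : ℕ × ℕ) : comp t 1 = t.2 := by simp [comp]
theorem comp_two (t : ℕ × ℕ) : comp t 2 = t.1 + t.2 := by simp [comp]

theorem comp_inj {s m : Fin 3} (hsm : s ≠ m) :
    Function.Injective (fun t : ℕ × ℕ => (comp t s, comp t m)) := by
  rintro ⟨a, b⟩ ⟨a', b'⟩ h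
  simp only [Prod.mk.injEq] at h
  obtain ⟨h1, h2⟩ := h
  have e0 : ∀ x y : ℕ, comp (x, y) 0 = x := fun x y => comp_zero (x, y)
  have e1 : ∀ x y : ℕ, comp (x, y) 1 = y := fun x y => comp_one (x, y)
  have e2 : ∀ x y : ℕ, comp (x, y) 2 = x + y := fun x y => comp_two (x, y)
  have hs : s = 0 ∨ s = 1 ∨ s = 2 := by omega
  have hm : m = 0 ∨ m = 1 ∨ m = 2 := by omega
  rcases hs with rfl | rfl | rfl <;> rcases hm with rfl | rfl | rfl <;>
    first
    | exact absurd rfl hsm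
    | (simp only [e0, e1, e2] at h1 h2
       have : a = a' ∧ b = b' := by omega
       rw [this.1, this.2])

theorem comp_dvd_N (t : ℕ × ℕ) (l : Fin 3) : comp t l ∣ N t := by
  have hl : l = 0 ∨ l = 1 ∨ l = 2 := by omega
  rcases hl with rfl | rfl | rfl
  · rw [comp_zero]; unfold N; exact Dvd.dvd.mul_right (Dvd.intro _ rfl) _
  · rw [comp_one]; unfold N; exact Dvd.dvd.mul_right (Dvd.intro_left _ rfl) _
  · rw [comp_two]; unfold N; exact Dvd.intro_left _ rfl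

theorem comp_ne {t : ℕ × ℕ} (h : IsT t) (l : Fin 3) : comp t l ≠ 0 := (comp_pos h l).ne'

/-- One class. -/
theorem count_cls (n : ℕ) {σ H η : ℝ} (hσ : 0 < σ) (hn1 : 1 ≤ n) {s m m' : Fin 3}
    (hsm : s ≠ m) (hsm' : s ≠ m') (hmm' : m ≠ m') (T : Finset (ℕ × ℕ))
    (hT : ∀ t ∈ T, IsT t ∧ rd t ≤ n ∧ ht t ≤ H ∧ Wt 1 (comp t s) ≤ (n : ℝ) ^ η ∧
      Wt 1 (comp t m) ≤ Wt 1 (comp t m')) :
    (T.card : ℝ) ≤ (n : ℝ) ^ ((1 + η) / 2) * Real.exp (2 * H * σ) *
      Real.exp (4 / (1 * σ) * ∑ p ∈ Nat.primesLE n, 1 / (p : ℝ)) := by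
  classical
  have hZ : 0 ≤ (n : ℝ) ^ ((1 + η) / 2) := by positivity
  rw [← Finset.card_image_of_injective T (comp_inj hsm)]
  apply card_pairs_le n one_pos hσ hZ
  intro q hq
  rw [Finset.mem_image] at hq
  obtain ⟨t, ht', rfl⟩ := hq
  obtain ⟨hI, hrd, hht, h1, h2⟩ := hT t ht'
  simp only
  refine ⟨comp_ne hI s, comp_ne hI m, primeFactors_sub hI hrd (comp_dvd_N t s),
    primeFactors_sub hI hrd (comp_dvd_N t m), (log_comp_le hI s).trans hht,
    (log_comp_le hI m).trans hht, ?_⟩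
  refine pair_bound (Wt_pos one_pos _) (Wt_pos one_pos _) hn1 h1 h2 ?_
  have h3 := prod3 (fun l => Wt 1 (comp t l)) hsm hsm' hmm'
  simp only [comp_zero, comp_one, comp_two] at h3
  rw [← Wt_N hI, Wt_eq, one_pow, mul_one] at h3
  rw [← h3]
  exact_mod_cast hrd

/-- Triples of polynomially bounded height, one of whose members has a small radical. -/
theorem count_polyR (C η ε : ℝ) (hC : 0 ≤ C) (hε : 0 < ε) :
    ∀ᶠ n : ℕ in atTop, ∀ T : Finset (ℕ × ℕ),
      (∀ t ∈ T, IsT t ∧ rd t ≤ n ∧ ht t ≤ C * Real.log n ∧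
        ∃ s : Fin 3, Wt 1 (comp t s) ≤ (n : ℝ) ^ η) →
      (T.card : ℝ) ≤ (n : ℝ) ^ ((1 + η) / 2 + ε) := by
  classical
  set σ : ℝ := ε / (4 * (C + 1)) with hσ
  have hσ0 : 0 < σ := by positivity
  set A : ℝ := 4 / (1 * σ) with hA
  have hA0 : 0 < A := by positivity
  have hlim : Tendsto (fun n : ℕ => Real.log (n : ℝ)) atTop atTop :=
    Real.tendsto_log_atTop.comp tendsto_natCast_atTop_atTop
  filter_upwards [hlim.eventually (eventually_ge_atTop 4),
    ev_log_pow_le 9 (27 * A) (ε / 2) (by positivity), eventually_ge_atTop 1] with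
    n h4 hlogpow hn1 T hT
  set x := Real.log (n : ℝ) with hx
  have hx0 : 0 < x := by linarith
  have hn0 : (0 : ℝ) < n := by exact_mod_cast hn1
  have hn1' : (1 : ℝ) ≤ n := by exact_mod_cast hn1
  set Z : ℝ := (n : ℝ) ^ ((1 + η) / 2) with hZ
  have hZ0 : 0 ≤ Z := by positivity
  set cl : Fin 3 × Fin 3 → Finset (ℕ × ℕ) := fun q => T.filter (fun t =>
    Wt 1 (comp t q.1) ≤ (n : ℝ) ^ η ∧ q.1 ≠ q.2 ∧
      ∀ l, l ≠ q.1 → Wt 1 (comp t q.2) ≤ Wt 1 (comp t l)) with hcl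
  have hcover : T ⊆ (Finset.univ : Finset (Fin 3 × Fin 3)).biUnion cl := by
    intro t ht'
    obtain ⟨s, hs⟩ := (hT t ht').2.2.2
    obtain ⟨m, hm, hmin⟩ := Finset.exists_min_image
      ((Finset.univ : Finset (Fin 3)).filter (fun l => l ≠ s)) (fun l => Wt 1 (comp t l)) (by
        by_cases h : s = 0
        · exact ⟨1, by rw [Finset.mem_filter]; exact ⟨Finset.mem_univ _, by rw [h]; decide⟩⟩
        · exact ⟨0, by rw [Finset.mem_filter]; exact ⟨Finset.mem_univ _, fun h' => h h'.symm⟩⟩)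
    rw [Finset.mem_filter] at hm
    rw [Finset.mem_biUnion]
    refine ⟨(s, m), Finset.mem_univ _, ?_⟩
    simp only [hcl, Finset.mem_filter]
    exact ⟨ht', hs, hm.2.symm, fun l hl => hmin l (Finset.mem_filter.mpr ⟨Finset.mem_univ _, hl⟩)⟩
  set X : ℝ := Z * Real.exp (2 * (C * x) * σ) *
      Real.exp (A * ∑ p ∈ Nat.primesLE n, 1 / (p : ℝ)) with hX
  have hX0 : 0 ≤ X := by positivity
  have hclass : ∀ q : Fin 3 × Fin 3, ((cl q).card : ℝ) ≤ X := by
    rintro ⟨s, m⟩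
    by_cases hsm : s = m
    · have : cl (s, m) = ∅ := by
        simp only [hcl]
        apply Finset.filter_eq_empty_iff.mpr
        intro t _ h
        exact h.2.1 hsm
      rw [this]
      simpa using hX0
    · obtain ⟨m', h1, h2⟩ := exists_third s m hsm
      apply count_cls n hσ0 hn1 hsm h1 h2.symm
      intro t ht'
      simp only [hcl, Finset.mem_filter] at ht'
      obtain ⟨a1, a2, _, a4⟩ := ht'
      exact ⟨(hT t a1).1, (hT t a1).2.1, (hT t a1).2.2.1, a2, a4 m' h1.symm⟩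
  have hcard : (T.card : ℝ) ≤ 9 * X := by
    calc (T.card : ℝ) ≤ (((Finset.univ : Finset (Fin 3 × Fin 3)).biUnion cl).card : ℝ) := by
          exact_mod_cast Finset.card_le_card hcover
      _ ≤ ∑ q : Fin 3 × Fin 3, ((cl q).card : ℝ) := by exact_mod_cast Finset.card_biUnion_le
      _ ≤ ∑ _q : Fin 3 × Fin 3, X := Finset.sum_le_sum (fun q _ => hclass q)
      _ = 9 * X := by
          rw [Finset.sum_const, Finset.card_univ, Fintype.card_prod, Fintype.card_fin]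
          norm_num
  have hmert := mert_le n A hA0.le h4
  rw [← hx] at hmert
  have hσx : Real.exp (2 * (C * x) * σ) ≤ (n : ℝ) ^ (ε / 2) := by
    rw [Real.rpow_def_of_pos hn0, ← hx]
    apply Real.exp_le_exp.mpr
    have h5 : 2 * C * σ ≤ ε / 2 := by
      rw [hσ, mul_div_assoc', div_le_iff₀ (by positivity)]
      nlinarith
    calc 2 * (C * x) * σ = 2 * C * σ * x := by ring
      _ ≤ ε / 2 * x := mul_le_mul_of_nonneg_right h5 hx0.le
      _ = x * (ε / 2) := by ring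
  calc (T.card : ℝ) ≤ 9 * X := hcard
    _ ≤ 9 * (Z * (n : ℝ) ^ (ε / 2) * x ^ (27 * A)) := by
        rw [hX]
        gcongr
    _ = Z * (n : ℝ) ^ (ε / 2) * (9 * x ^ (27 * A)) := by ring
    _ ≤ Z * (n : ℝ) ^ (ε / 2) * (n : ℝ) ^ (ε / 2) := by gcongr
    _ = (n : ℝ) ^ ((1 + η) / 2 + ε) := by
        rw [hZ, ← Real.rpow_add hn0, ← Real.rpow_add hn0]
        congr 1
        ring

end Pool.Agent.Lib.Pabc8
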