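import Mathlib
import Pool.Agent.Lib.Pabc1.SCount

open Finset Filter Topology

namespace Pool.Agent.Lib.Pabc8

open Pool.Agent.Lib.Pabc2 Pool.Agent.Lib.Pabc1

/-- The condition on the exponent `g` of the special prime. -/
def GoodG (δ lam : ℝ) (g : ℕ) : Prop :=
  18 ≤ δ * g ∧ 18 * (3 / 2 * Real.log g + 3) ≤ δ * lam * g

theorem goodG_eventually {δ lam : ℝ} (hδ : 0 < δ) (hlam : 0 < lam) :
    ∀ᶠ g : ℕ in atTop, GoodG δ lam g := by
  have h1 : ∀ᶠ x : ℝ in atTop, 18 ≤ δ * x := by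
    filter_upwards [eventually_ge_atTop (18 / δ)] with x hx
    rw [div_le_iff₀ hδ] at hx
    linarith
  have h2 : Tendsto (fun x : ℝ => Real.log x / x) atTop (𝓝 0) := by
    have := Real.isLittleO_log_id_atTop.tendsto_div_nhds_zero
    exact this
  have h3 : ∀ᶠ x : ℝ in atTop, Real.log x / x < δ * lam / 54 :=
    h2.eventually (gt_mem_nhds (by positivity))
  have h4 : ∀ᶠ x : ℝ in atTop, 108 / (δ * lam) ≤ x := eventually_ge_atTop _
  have h5 : ∀ᶠ x : ℝ in atTop, 18 ≤ δ * x ∧ 18 * (3 / 2 * Real.log x + 3) ≤ δ * lam * x := by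
    filter_upwards [h1, h3, h4, eventually_gt_atTop 0] with x a1 a3 a4 a5
    refine ⟨a1, ?_⟩
    rw [div_lt_iff₀ a5] at a3
    rw [div_le_iff₀ (by positivity)] at a4
    nlinarith
  exact tendsto_natCast_atTop_atTop.eventually h5

/-- The class bound, analytic form, for exponents of moderate size. -/
theorem class_card_leG {δ : ℝ} (hδ : 0 < δ) (hδ1 : δ ≤ 1) {K0 : ℕ} (hK0 : 16 / δ ≤ K0)
    (n : ℕ) (hn : 4 ≤ Real.log n)
    (S : Finset ℕ) (T : Finset (ℕ × ℕ)) (R : ℕ × ℕ → ℕ) (g : ℕ) (l1 l3 : Fin 3)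
    (hD : ∀ t ∈ T, RootD δ S (R t) l3 t)
    (hrd : ∀ t ∈ T, rd t ≤ n)
    (hg : ∀ t ∈ T, ex t (R t) = g) (hl : ∀ t ∈ T, lab t (R t) = l1)
    (hc : ∀ t ∈ T, ∀ t' ∈ T, codeD K0 S t = codeD K0 S t')
    (hh : ∀ t ∈ T, ∀ t' ∈ T, codeH K0 (δ / 4) t = codeH K0 (δ / 4) t')
    (lam : ℝ) (hlam : 0 < lam) (hgood : GoodG δ lam g)
    (hbig : ∀ t ∈ T, 200 / δ ^ 2 ≤ ht t) :
    (T.card : ℝ) ≤ 2 * g * (n : ℝ) ^ lam := by
  classical
  obtain ⟨hg1, hg2⟩ := hgood
  set x := Real.log (n : ℝ) with hx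
  set ℓ := ⌊δ * g / 9⌋₊ with hℓ
  have hx0 : 0 < x := by linarith
  have hn0 : (0 : ℝ) < n := by
    rcases Nat.eq_zero_or_pos n with h | h
    · rw [h] at hx
      simp at hx
      linarith
    · exact_mod_cast h
  have hℓle : (ℓ : ℝ) ≤ δ * g / 9 := Nat.floor_le (by positivity)
  have hℓge : δ * g / 18 ≤ ℓ := by
    have := Nat.lt_floor_add_one (δ * g / 9)
    rw [← hℓ] at this
    linarith
  have hℓ1 : 1 ≤ ℓ := by
    rw [hℓ]
    apply Nat.le_floor
    push_cast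
    linarith
  have hgℓ : 9 * (ℓ : ℝ) ≤ δ * g := by linarith
  have hg0 : (0 : ℝ) < g := by
    by_contra hcon
    push Not at hcon
    nlinarith
  have hg0' : 1 ≤ g := by
    have : 0 < g := by exact_mod_cast hg0
    omega
  rcases T.eq_empty_or_nonempty with hTe | hne
  · rw [hTe]
    simp only [Finset.card_empty, Nat.cast_zero]
    positivity
  obtain ⟨t0, ht0⟩ := hne
  have key := class_boundS hδ hδ1 hK0 S T R g l1 l3 hD hg hl hc hh ℓ hℓ1 hgℓ hbig
  have hSp : ∀ p ∈ S, p.Prime := fun p hp => Nat.prime_of_mem_primeFactors ((hD t0 ht0).sub hp)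
  have hprodS : ∏ p ∈ S, p ≤ n := by
    refine le_trans ?_ (hrd t0 ht0)
    unfold rd
    apply Finset.prod_le_prod_of_subset_of_one_le' (hD t0 ht0).sub
    intro p hp _
    exact (Nat.prime_of_mem_primeFactors hp).one_lt.le
  have hl2 : Real.log 2 ≤ 7 / 10 := log_two_bd
  have hl2' : 69 / 100 ≤ Real.log 2 := by linarith [Real.log_two_gt_d9]
  have hScard : (S.card : ℝ) ≤ 3 / 2 * x := by
    have h1 : 2 ^ S.card ≤ ∏ p ∈ S, p := Finset.pow_card_le_prod S _ 2 (fun p hp => (hSp p hp).two_le)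
    have h2 : Real.log ((2 : ℝ) ^ S.card) ≤ x := by
      apply Real.log_le_log (by positivity)
      exact_mod_cast h1.trans hprodS
    rw [Real.log_pow] at h2
    nlinarith
  have hlogg : 0 ≤ Real.log (g : ℝ) := Real.log_natCast_nonneg g
  have hexp : (T.card.choose ℓ : ℝ) ≤ Real.exp (ℓ * (lam * x)) := by
    have h1 : (T.card.choose ℓ : ℝ) ≤ (g : ℝ) ^ S.card * (4 * n) ^ 2 := by
      calc (T.card.choose ℓ : ℝ) ≤ (g : ℝ) ^ S.card * (4 * ((∏ p ∈ S, p : ℕ) : ℝ)) ^ 2 := by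
            exact_mod_cast key
        _ ≤ (g : ℝ) ^ S.card * (4 * n) ^ 2 := by
            have : ((∏ p ∈ S, p : ℕ) : ℝ) ≤ n := by exact_mod_cast hprodS
            gcongr
    refine h1.trans ?_
    rw [← Real.log_le_iff_le_exp (by positivity), Real.log_mul (by positivity) (by positivity),
      Real.log_pow, Real.log_pow, Real.log_mul (by norm_num) hn0.ne', ← hx]
    have h4 : Real.log 4 ≤ 14 / 10 := by
      have : Real.log 4 = 2 * Real.log 2 := by
        rw [show (4 : ℝ) = 2 ^ 2 by norm_num, Real.log_pow]; norm_num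
      linarith
    have h5 : (S.card : ℝ) * Real.log g ≤ 3 / 2 * x * Real.log g :=
      mul_le_mul_of_nonneg_right hScard hlogg
    have h6 : (3 / 2 * Real.log g + 3) * x ≤ ℓ * (lam * x) := by
      have h7 : 3 / 2 * Real.log g + 3 ≤ δ * g / 18 * lam := by linarith
      have h8 : δ * g / 18 * lam ≤ ℓ * lam := mul_le_mul_of_nonneg_right hℓge hlam.le
      calc (3 / 2 * Real.log g + 3) * x ≤ (ℓ * lam) * x :=
            mul_le_mul_of_nonneg_right (h7.trans h8) hx0.le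
        _ = ℓ * (lam * x) := by ring
    refine le_trans ?_ h6
    push_cast
    nlinarith
  have hΛ : 0 ≤ lam * x := by positivity
  have h9 := card_le_of_choose_le hℓ1 hΛ hexp
  have h10 : Real.exp (lam * x) = (n : ℝ) ^ lam := by
    rw [Real.rpow_def_of_pos hn0, mul_comm, hx]
  rw [h10] at h9
  refine h9.trans ?_
  have hℓg : (ℓ : ℝ) ≤ g := by
    have : δ * g ≤ 1 * g := mul_le_mul_of_nonneg_right hδ1 hg0.le
    linarith
  gcongr

/-- Triples with a given set `S`, exponents of moderate size. -/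
theorem fibre_card_leG {δ : ℝ} (hδ : 0 < δ) (hδ1 : δ ≤ 1) {K0 : ℕ} (hK0 : 16 / δ ≤ K0)
    (n : ℕ) (A : ℝ) (hA : 0 ≤ A) (hn : 4 ≤ Real.log n)
    (S : Finset ℕ) (T : Finset (ℕ × ℕ)) (R : ℕ × ℕ → ℕ) (L3 : ℕ × ℕ → Fin 3)
    (hD : ∀ t ∈ T, RootD δ S (R t) (L3 t) t)
    (hrd : ∀ t ∈ T, rd t ≤ n) (hht : ∀ t ∈ T, ht t ≤ (n : ℝ) ^ A)
    (lam : ℝ) (hlam : 0 < lam) (hgood : ∀ t ∈ T, GoodG δ lam (ex t (R t)))
    (G : ℕ) (hG : ∀ t ∈ T, ex t (R t) ≤ G)
    (hbig : ∀ t ∈ T, 200 / δ ^ 2 ≤ ht t) :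
    (T.card : ℝ) ≤ (2 * G * (n : ℝ) ^ lam) *
      (9 * (K0 + 1) * (A * Real.log n / Real.log (1 + δ / 16) + 1) * (G + 1)) *
        BconD K0 ^ S.card := by
  classical
  set x := Real.log (n : ℝ) with hx
  have hx0 : 0 < x := by linarith
  have hn0 : (0 : ℝ) < n := by
    rcases Nat.eq_zero_or_pos n with h | h
    · rw [h] at hx
      simp at hx
      linarith
    · exact_mod_cast h
  have hI : ∀ t ∈ T, IsT t := fun t h => (hD t h).h
  have hK00 : (0 : ℝ) < K0 := lt_of_lt_of_le (by positivity) hK0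
  set B0 : ℝ := 2 * G * (n : ℝ) ^ lam with hB0
  have hB00 : 0 ≤ B0 := by positivity
  have hl17 : 0 < Real.log (1 + δ / 16) := Real.log_pos (by linarith)
  set L : ℕ := ⌊A * x / Real.log (1 + δ / 16)⌋₊ with hL
  set f : ℕ × ℕ → ((p : ℕ) → p ∈ S → Fin 3 × ℕ) × (ℕ × ℕ) × ℕ × Fin 3 × Fin 3 :=
    fun t => (codeD K0 S t, codeH K0 (δ / 4) t, ex t (R t), lab t (R t), L3 t) with hf
  set C1 := T.image (codeD K0 S) with hC1
  have h1 : T.card ≤ ⌊B0⌋₊ * (T.image f).card := by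
    apply Finset.card_le_mul_card_image
    intro c hc
    rw [Finset.mem_image] at hc
    obtain ⟨t0, ht0, rfl⟩ := hc
    apply Nat.le_floor
    have hm : ∀ t ∈ T.filter (fun a => f a = f t0), t ∈ T ∧ f t = f t0 := by
      intro t h
      rwa [Finset.mem_filter] at h
    refine le_trans (class_card_leG hδ hδ1 hK0 n hn S (T.filter (fun a => f a = f t0)) R
      (ex t0 (R t0)) (lab t0 (R t0)) (L3 t0) ?_ ?_ ?_ ?_ ?_ ?_ lam hlam (hgood t0 ht0) ?_) ?_
    · intro t h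
      have h2 := (hm t h).2
      simp only [hf, Prod.mk.injEq] at h2
      rw [← h2.2.2.2.2]
      exact hD t (hm t h).1
    · exact fun t h => hrd t (hm t h).1
    · intro t h
      have := (hm t h).2
      simp only [hf, Prod.mk.injEq] at this
      exact this.2.2.1
    · intro t h
      have := (hm t h).2
      simp only [hf, Prod.mk.injEq] at this
      exact this.2.2.2.1
    · intro t h t' h'
      have e1 := (hm t h).2
      have e2 := (hm t' h').2
      simp only [hf, Prod.mk.injEq] at e1 e2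
      rw [e1.1, e2.1]
    · intro t h t' h'
      have e1 := (hm t h).2
      have e2 := (hm t' h').2
      simp only [hf, Prod.mk.injEq] at e1 e2
      rw [e1.2.1, e2.2.1]
    · exact fun t h => hbig t (hm t h).1
    · have : (ex t0 (R t0) : ℝ) ≤ G := by exact_mod_cast hG t0 ht0
      rw [hB0]
      gcongr
  have hSsub : ∀ t ∈ T, S ⊆ (N t).primeFactors := fun t h => (hD t h).sub
  have h2 : (T.image f) ⊆ C1 ×ˢ ((Finset.range (K0 + 1) ×ˢ Finset.range (L + 1)) ×ˢ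
      (Finset.range (G + 1) ×ˢ ((Finset.univ : Finset (Fin 3)) ×ˢ
        (Finset.univ : Finset (Fin 3))))) := by
    intro c hc
    rw [Finset.mem_image] at hc
    obtain ⟨t, ht', rfl⟩ := hc
    have hh0 := ht_pos (hI t ht')
    simp only [Finset.mem_product, hf]
    refine ⟨Finset.mem_image_of_mem _ ht', ⟨?_, ?_⟩, ?_, Finset.mem_univ _, Finset.mem_univ _⟩
    · rw [Finset.mem_range, Nat.lt_succ_iff]
      simp only [codeH]
      have ha := al_le_one (hI t ht')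
      apply Nat.floor_le_of_le
      nlinarith
    · rw [Finset.mem_range, Nat.lt_succ_iff]
      simp only [codeH]
      rw [hL]
      apply Nat.floor_le_floor
      rw [show (1 : ℝ) + δ / 4 / 4 = 1 + δ / 16 by ring]
      apply div_le_div_of_nonneg_right _ hl17.le
      calc Real.log (ht t) ≤ Real.log ((n : ℝ) ^ A) := Real.log_le_log hh0 (hht t ht')
        _ = A * x := Real.log_rpow hn0 A
    · rw [Finset.mem_range, Nat.lt_succ_iff]
      exact hG t ht'
  have h3 : ((T.image f).card : ℝ) ≤ C1.card * (((K0 + 1) * (L + 1)) * ((G + 1) * 9)) := by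
    have := Finset.card_le_card h2
    rw [Finset.card_product, Finset.card_product, Finset.card_product, Finset.card_product,
      Finset.card_product, Finset.card_range, Finset.card_range, Finset.card_range,
      Finset.card_univ, Fintype.card_fin] at this
    exact_mod_cast this
  have h4 : (C1.card : ℝ) ≤ BconD K0 ^ S.card := by
    apply card_codesD_le
    intro c hc
    rw [hC1, Finset.mem_image] at hc
    obtain ⟨t, ht', rfl⟩ := hc
    simp only [codeD]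
    rw [Finset.sum_attach S (fun p => ⌊u t p * (K0 * S.card)⌋₊)]
    have hu := sum_u_le (hI t ht') (hSsub t ht')
    have h5 : ((∑ p ∈ S, ⌊u t p * (K0 * S.card)⌋₊ : ℕ) : ℝ) ≤
        ((3 * K0 * S.card : ℕ) : ℝ) := by
      push_cast
      calc ∑ p ∈ S, (⌊u t p * (K0 * S.card)⌋₊ : ℝ) ≤ ∑ p ∈ S, u t p * (K0 * S.card) := by
            apply Finset.sum_le_sum
            intro p _
            apply Nat.floor_le
            have := u_nonneg (hI t ht') p
            positivity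
        _ = (∑ p ∈ S, u t p) * (K0 * S.card) := by rw [Finset.sum_mul]
        _ ≤ 3 * (K0 * S.card) := by gcongr
        _ ≤ _ := by linarith
    exact_mod_cast h5
  have hLle : (L : ℝ) ≤ A * x / Real.log (1 + δ / 16) := Nat.floor_le (by positivity)
  have hBp : 0 ≤ BconD K0 ^ S.card := pow_nonneg (BconD_pos K0).le _
  have h6 : (⌊B0⌋₊ : ℝ) ≤ B0 := Nat.floor_le hB00
  calc (T.card : ℝ) ≤ (⌊B0⌋₊ : ℝ) * (T.image f).card := by exact_mod_cast h1
    _ ≤ B0 * (C1.card * (((K0 + 1) * (L + 1)) * ((G + 1) * 9))) := by gcongr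
    _ ≤ B0 * (BconD K0 ^ S.card * (((K0 + 1) * (A * x / Real.log (1 + δ / 16) + 1)) *
        (((G : ℝ) + 1) * 9))) := by gcongr
    _ = _ := by ring

/-- Triples of root type whose set `S` has small product and whose exponent is moderate. -/
theorem count_rootG (δ A σ ε K : ℝ) (hδ : 0 < δ) (hδ1 : δ ≤ 1) (hA : 0 ≤ A) (hε : 0 < ε)
    (hK : 0 < K) :
    ∃ g0 : ℕ, ∀ᶠ n : ℕ in atTop, ∀ T : Finset (ℕ × ℕ),
      (∀ t ∈ T, rd t ≤ n ∧ ht t ≤ (n : ℝ) ^ A ∧ 200 / δ ^ 2 ≤ ht t ∧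
        ∃ (S : Finset ℕ) (R : ℕ) (l3 : Fin 3), RootD δ S R l3 t ∧
          ((∏ p ∈ S, p : ℕ) : ℝ) ≤ (n : ℝ) ^ σ ∧ g0 ≤ ex t R ∧
          δ * ex t R ≤ 9 * (⌈K * Real.log n⌉₊ : ℝ)) →
      (T.card : ℝ) ≤ (n : ℝ) ^ (σ + ε) := by
  classical
  set lam : ℝ := ε / 2 with hlam
  have hlam0 : 0 < lam := by positivity
  obtain ⟨g0, hg0⟩ := eventually_atTop.mp (goodG_eventually hδ hlam0)
  refine ⟨g0, ?_⟩
  set K0 : ℕ := ⌈16 / δ⌉₊ with hK0def
  have hK0' : 16 / δ ≤ K0 := Nat.le_ceil _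
  set B := BconD K0 with hB
  have hB0 : 0 < B := BconD_pos K0
  have hl17 : 0 < Real.log (1 + δ / 16) := Real.log_pos (by linarith)
  set D : ℝ := 9 * (K + 1) / δ with hD
  have hD0 : 0 < D := by positivity
  set C0 : ℝ := 2 * D * (9 * (K0 + 1) * (A / Real.log (1 + δ / 16) + 1) * (D + 1)) with hC0
  have hC00 : 0 ≤ C0 := by positivity
  have hlim : Tendsto (fun n : ℕ => Real.log (n : ℝ)) atTop atTop :=
    Real.tendsto_log_atTop.comp tendsto_natCast_atTop_atTop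
  filter_upwards [hlim.eventually (eventually_ge_atTop 4),
    ev_log_pow_le C0 (3 + 27 * B) (ε / 2) (by positivity), eventually_ge_atTop 1] with
    n h4 hlogpow hn1 T hT
  set x := Real.log (n : ℝ) with hx
  have hx0 : 0 < x := by linarith
  have hx1 : 1 ≤ x := by linarith
  have hn0 : (0 : ℝ) < n := by exact_mod_cast hn1
  have hn1' : (1 : ℝ) ≤ n := by exact_mod_cast hn1
  choose! S R L3 hR using fun t (h : t ∈ T) => (hT t h).2.2.2
  set P := Nat.primesLE n with hP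
  have hPp : ∀ p ∈ P, p.Prime := fun p hp => (Nat.mem_primesLE.mp hp).2
  have hsubP : ∀ t ∈ T, (N t).primeFactors ⊆ P := by
    intro t htT p hp
    rw [hP, Nat.mem_primesLE]
    refine ⟨le_trans ?_ (hT t htT).1, Nat.prime_of_mem_primeFactors hp⟩
    exact Nat.le_of_dvd (Finset.prod_pos (fun q hq => (Nat.prime_of_mem_primeFactors hq).pos))
      (Finset.dvd_prod_of_mem (fun p => p) hp)
  set F := P.powerset.filter (fun S => ((∏ p ∈ S, p : ℕ) : ℝ) ≤ (n : ℝ) ^ σ) with hF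
  set G : ℕ := ⌊D * x⌋₊ with hG
  have hGle : (G : ℝ) ≤ D * x := Nat.floor_le (by positivity)
  have hexG : ∀ t ∈ T, ex t (R t) ≤ G := by
    intro t ht'
    apply Nat.le_floor
    have h1 := (hR t ht').2.2.2
    have hceil : (⌈K * x⌉₊ : ℝ) ≤ K * x + 1 := (Nat.ceil_lt_add_one (by positivity)).le
    have h2 : δ * (ex t (R t) : ℝ) ≤ 9 * (K + 1) * x := by
      have : K * x + 1 ≤ (K + 1) * x := by linarith
      linarith
    rw [hD, div_mul_eq_mul_div, le_div_iff₀ hδ]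
    linarith
  set A0 : ℝ := (2 * G * (n : ℝ) ^ lam) *
      (9 * (K0 + 1) * (A * x / Real.log (1 + δ / 16) + 1) * (G + 1)) with hA0
  have hA00 : 0 ≤ A0 := by positivity
  have hmapsF : ∀ t ∈ T, S t ∈ F := by
    intro t ht'
    rw [hF, Finset.mem_filter, Finset.mem_powerset]
    exact ⟨(hR t ht').1.sub.trans (hsubP t ht'), (hR t ht').2.1⟩
  have h5 : (T.card : ℝ) ≤ A0 * ∑ S ∈ F, B ^ S.card := by
    rw [Finset.card_eq_sum_card_fiberwise (f := S) (t := F)
      (fun t ht => hmapsF t ht), Finset.mul_sum]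
    push_cast
    apply Finset.sum_le_sum
    intro S' _
    have hm : ∀ t ∈ T.filter (fun t => S t = S'), t ∈ T ∧ S t = S' := by
      intro t h
      rwa [Finset.mem_filter] at h
    apply fibre_card_leG hδ hδ1 hK0' n A hA h4 S' _ R L3
    · intro t h
      have h1 := (hR t (hm t h).1).1
      rwa [(hm t h).2] at h1
    · exact fun t h => (hT t (hm t h).1).1
    · exact fun t h => (hT t (hm t h).1).2.1
    · exact hlam0
    · exact fun t h => hg0 _ (hR t (hm t h).1).2.2.1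
    · exact fun t h => hexG t (hm t h).1
    · exact fun t h => (hT t (hm t h).1).2.2.1
  have b2 := sum_small P hPp B ((n : ℝ) ^ σ) hB0.le (by positivity)
  have hmert := mert_le n B hB0.le h4
  have hA0le : A0 ≤ C0 * x ^ (3 : ℝ) * (n : ℝ) ^ (ε / 2) := by
    have h7 : A * x / Real.log (1 + δ / 16) + 1 ≤ (A / Real.log (1 + δ / 16) + 1) * x := by
      have : A * x / Real.log (1 + δ / 16) = A / Real.log (1 + δ / 16) * x := by ring
      rw [this]
      nlinarith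
    have h8 : (G : ℝ) + 1 ≤ (D + 1) * x := by nlinarith
    rw [hA0]
    calc (2 * (G : ℝ) * (n : ℝ) ^ lam) *
        (9 * (K0 + 1) * (A * x / Real.log (1 + δ / 16) + 1) * (G + 1)) ≤
        (2 * (D * x) * (n : ℝ) ^ lam) *
        (9 * (K0 + 1) * ((A / Real.log (1 + δ / 16) + 1) * x) * ((D + 1) * x)) := by
          gcongr
      _ = C0 * (x * x * x) * (n : ℝ) ^ lam := by
          rw [hC0]
          ring
      _ = C0 * x ^ (3 : ℝ) * (n : ℝ) ^ (ε / 2) := by
          rw [show (3 : ℝ) = ((3 : ℕ) : ℝ) by norm_num, Real.rpow_natCast, hlam]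
          ring
  have hA01 : 0 ≤ C0 * x ^ (3 : ℝ) * (n : ℝ) ^ (ε / 2) := by positivity
  have hexp0 : 0 ≤ (n : ℝ) ^ σ * Real.exp (B * ∑ p ∈ P, 1 / (p : ℝ)) := by positivity
  calc (T.card : ℝ) ≤ A0 * ∑ S ∈ F, B ^ S.card := h5
    _ ≤ A0 * ((n : ℝ) ^ σ * Real.exp (B * ∑ p ∈ P, 1 / (p : ℝ))) :=
        mul_le_mul_of_nonneg_left b2 hA00
    _ ≤ (C0 * x ^ (3 : ℝ) * (n : ℝ) ^ (ε / 2)) *
        ((n : ℝ) ^ σ * Real.exp (B * ∑ p ∈ P, 1 / (p : ℝ))) :=
        mul_le_mul_of_nonneg_right hA0le hexp0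
    _ ≤ (C0 * x ^ (3 : ℝ) * (n : ℝ) ^ (ε / 2)) *
        ((n : ℝ) ^ σ * x ^ (27 * B)) := by gcongr
    _ = (C0 * (x ^ (3 : ℝ) * x ^ (27 * B))) * ((n : ℝ) ^ (ε / 2) * (n : ℝ) ^ σ) := by ring
    _ = (C0 * x ^ (3 + 27 * B)) * ((n : ℝ) ^ (ε / 2) * (n : ℝ) ^ σ) := by
        rw [Real.rpow_add hx0]
    _ ≤ (n : ℝ) ^ (ε / 2) * ((n : ℝ) ^ (ε / 2) * (n : ℝ) ^ σ) := by
        gcongr
    _ = (n : ℝ) ^ (σ + ε) := by
        rw [← Real.rpow_add hn0, ← Real.rpow_add hn0]
        congr 1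
        ring

end Pool.Agent.Lib.Pabc8
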