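import Mathlib
import Pool.Agent.Lib.Pabc1.SCover

open Finset Filter Topology

namespace Pool.Agent.Lib.Pabc8

open Pool.Agent.Lib.Pabc2 Pool.Agent.Lib.Pabc1

/-- The total weight of the label `0` is at most `log a`. -/
theorem weight_zero_le {t : ℕ × ℕ} (h : IsT t) :
    ∑ p ∈ (N t).primeFactors.filter (fun p => lab t p = 0), Real.log (p : ℝ) ≤ Real.log t.1 := by
  have hsub : (N t).primeFactors.filter (fun p => lab t p = 0) ⊆ t.1.primeFactors := by
    intro p hp
    rw [Finset.mem_filter] at hp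
    have hpp := Nat.prime_of_mem_primeFactors hp.1
    rw [Nat.mem_primeFactors]
    refine ⟨hpp, ?_, h.1.ne'⟩
    have hl := hp.2
    unfold lab at hl
    by_contra hcon
    rw [if_neg hcon] at hl
    by_cases h2 : p ∣ t.2
    · rw [if_pos h2] at hl
      exact absurd hl (by decide)
    · rw [if_neg h2] at hl
      exact absurd hl (by decide)
  calc ∑ p ∈ (N t).primeFactors.filter (fun p => lab t p = 0), Real.log (p : ℝ) ≤
      ∑ p ∈ t.1.primeFactors, Real.log (p : ℝ) :=
        Finset.sum_le_sum_of_subset_of_nonneg hsub (fun p _ _ => Real.log_natCast_nonneg p)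
    _ = Real.log ((∏ p ∈ t.1.primeFactors, p : ℕ) : ℝ) := by
        push_cast
        rw [Real.log_prod (fun p hp => by
          have := (Nat.prime_of_mem_primeFactors hp).ne_zero
          exact_mod_cast this)]
    _ ≤ Real.log t.1 := by
        apply Real.log_le_log
        · exact_mod_cast Finset.prod_pos (fun p hp => (Nat.prime_of_mem_primeFactors hp).pos)
        · exact_mod_cast Nat.le_of_dvd h.1 (Nat.prod_primeFactors_dvd _)

/-- Every triple has a suitable set `S` whose weight is at most half of the weight of the two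
larger members plus the weight of the smallest. -/
theorem coverSm (k : ℕ) {δ : ℝ} (hδ : δ * (2 * k + 1) = 1 / 2) {t : ℕ × ℕ} (hI : IsT t)
    (hbig : 2 ≤ ht t) :
    ∃ S ⊆ (N t).primeFactors, ∑ p ∈ S, Real.log (p : ℝ) ≤
      (1 / 2 + 1 / ((k : ℝ) + 1)) * ∑ p ∈ (N t).primeFactors, Real.log (p : ℝ) +
        1 / 2 * Real.log t.1 ∧
      (∑ p ∈ (N t).primeFactors \ S, u t p ≤ 1 - δ ∨
        ∃ (R : ℕ) (l : Fin 3), RootD δ S R l t ∧ δ ≤ u t R) := by
  classical
  have hk : (0 : ℝ) ≤ k := Nat.cast_nonneg k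
  have hδ0 : 0 < δ := by
    by_contra hcon
    push Not at hcon
    nlinarith
  have hδ2 : δ ≤ 1 / 2 := by nlinarith
  have H := ht_pos hI
  have hl2 := log_two_bd
  set PF := (N t).primeFactors with hPF
  set L := ∑ p ∈ PF, Real.log (p : ℝ) with hL
  set LL : Fin 3 → ℝ := fun l => ∑ p ∈ PF.filter (fun p => lab t p = l), Real.log (p : ℝ) with hLL
  have hLL0 : ∀ l, 0 ≤ LL l := fun l => Finset.sum_nonneg (fun p _ => Real.log_natCast_nonneg p)
  have hsum : LL 0 + LL 1 + LL 2 = L := by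
    have := Finset.sum_fiberwise PF (lab t) (fun p : ℕ => Real.log (p : ℝ))
    rw [Fin.sum_univ_three] at this
    exact this
  have hla : LL 0 ≤ Real.log t.1 := weight_zero_le hI
  set e : ℝ := 1 / ((k : ℝ) + 1) with he
  have he0 : 0 < e := by positivity
  have hm1 : δ * (2 * k + 1) ≤ ∑ p ∈ PF.filter (fun p => lab t p = 1), u t p := by
    rw [hδ, hPF, sum_lab_eq hI 1, le_div_iff₀ H]
    have h1 := log_b_ge hI
    have h2 : comp t 1 = t.2 := by simp [comp]
    rw [h2]
    linarith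
  have hm2 : δ * (2 * k + 1) ≤ ∑ p ∈ PF.filter (fun p => lab t p = 2), u t p := by
    rw [hδ, hPF, sum_lab_eq hI 2, le_div_iff₀ H]
    have h2 : comp t 2 = t.1 + t.2 := by simp [comp]
    have h3 : Real.log ((t.1 + t.2 : ℕ) : ℝ) = ht t := by
      unfold ht
      push_cast
      rfl
    rw [h2, h3]
    linarith
  obtain ⟨M1, hM1, hmM1, r1, hr1, hc1⟩ := label_data k hδ0 _ hm1
  obtain ⟨M2, hM2, hmM2, r2, hr2, hc2⟩ := label_data k hδ0 _ hm2
  obtain ⟨S12, hS12, hw12, ha12⟩ := pairS hI (show (1 : Fin 3) ≠ 2 by decide) hM2 hmM2 hr1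
  obtain ⟨S21, hS21, hw21, ha21⟩ := pairS hI (show (2 : Fin 3) ≠ 1 by decide) hM1 hmM1 hr2
  rw [← hPF, ← hL] at hw12 hw21
  change _ = L - r1 - LL 2 + _ at hw12
  change _ = L - r2 - LL 1 + _ at hw21
  rw [← he] at hc1 hc2
  change _ ≤ e * LL 1 at hc1
  change _ ≤ e * LL 2 at hc2
  have hLL0' := hLL0 0
  have hLL1' := hLL0 1
  have hLL2' := hLL0 2
  have heL : e * LL 0 + e * LL 1 + e * LL 2 = e * L := by rw [← hsum]; ring
  have heL0 : 0 ≤ e * LL 0 := by positivity
  have heL1 : 0 ≤ e * L := by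
    have : 0 ≤ L := by linarith
    positivity
  have hexp : (1 / 2 + e) * L = 1 / 2 * L + e * L := by ring
  rw [hexp]
  rcases le_total (∑ p ∈ S12, Real.log (p : ℝ)) (∑ p ∈ S21, Real.log (p : ℝ)) with h | h
  · exact ⟨S12, hS12, by linarith, ha12⟩
  · exact ⟨S21, hS21, by linarith, ha21⟩

end Pool.Agent.Lib.Pabc8
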