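import Mathlib
import Pool.Agent.Lib.Pabc8.Poly
import Pool.Agent.Lib.Pabc8.Cover
import Pool.Agent.Lib.Pabc8.RootSmall

open Finset Filter Topology

namespace Pool.Agent.Lib.Pabc8

open Pool.Agent.Lib.Pabc2 Pool.Agent.Lib.Pabc1

/-- Upper bound for the number of triples with `a ≤ n ^ η`: the exponent `(1 + η) / 2 + θ`. -/
theorem main_small (θ η ε : ℝ) (hθ : 0 ≤ θ) (hε : 0 < ε) :
    ∀ᶠ n : ℕ in atTop, ∀ T : Finset (ℕ × ℕ),
      (∀ t ∈ T, IsT t ∧ rd t ≤ n ∧ ht t ≤ (n : ℝ) ^ θ ∧ (t.1 : ℝ) ≤ (n : ℝ) ^ η) →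
      2 * (T.card : ℝ) ≤ (n : ℝ) ^ ((1 + η) / 2 + θ + ε) := by
  classical
  -- parameters
  obtain ⟨k, hk⟩ := exists_nat_gt (8 / ε)
  have hk0 : (0 : ℝ) < k := lt_trans (by positivity) hk
  have hkε : 1 / ((k : ℝ) + 1) ≤ ε / 8 := by
    rw [div_lt_iff₀ hε] at hk
    rw [div_le_iff₀ (by positivity)]
    nlinarith
  set δ : ℝ := 1 / (2 * (2 * k + 1)) with hδ
  have hδ0 : 0 < δ := by positivity
  have hδk : δ * (2 * k + 1) = 1 / 2 := by
    rw [hδ]
    field_simp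
  have hδ1 : δ ≤ 1 := by nlinarith
  set e : ℝ := 1 / ((k : ℝ) + 1) with he
  have he0 : 0 < e := by positivity
  set σ : ℝ := (1 + η) / 2 + e with hσ
  obtain ⟨K, hK, hroot⟩ := count_rootS δ θ σ (ε / 4) hδ0 hδ1 hθ (by positivity)
  obtain ⟨g0, hmod⟩ := count_rootG δ θ σ (ε / 4) K hδ0 hδ1 hθ (by positivity) hK
  have hlight := count_lightS δ θ σ (ε / 4) hδ0 hδ1 hθ (by positivity)
  set C : ℝ := (g0 + 1) / δ with hC
  have hC0 : 0 < C := by positivity
  have hC1 : 1 ≤ C := by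
    rw [hC, le_div_iff₀ hδ0]
    have : (0 : ℝ) ≤ g0 := Nat.cast_nonneg g0
    linarith
  have hpoly := count_poly C η (ε / 4) hC0.le (by positivity)
  have hlim : Tendsto (fun n : ℕ => Real.log (n : ℝ)) atTop atTop :=
    Real.tendsto_log_atTop.comp tendsto_natCast_atTop_atTop
  filter_upwards [hroot, hmod, hlight, hpoly, hlim.eventually (eventually_ge_atTop 1),
    hlim.eventually (eventually_ge_atTop (200 / δ ^ 2)),
    ev_log_pow_le 8 0 (ε / 4) (by positivity), eventually_ge_atTop 1] with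
    n h1 h2 h3 h4 hx1 hxbig h6 hn1 T hT
  rw [Real.rpow_zero, mul_one] at h6
  set x := Real.log (n : ℝ) with hx
  have hx0 : 0 < x := by linarith
  have hn0 : (0 : ℝ) < n := by exact_mod_cast hn1
  have hn1' : (1 : ℝ) ≤ n := by exact_mod_cast hn1
  set T1 := T.filter (fun t => ht t ≤ C * x) with hT1
  set T2 := T.filter (fun t => C * x < ht t ∧
    ∃ S ⊆ (N t).primeFactors, ((∏ p ∈ S, p : ℕ) : ℝ) ≤ (n : ℝ) ^ σ ∧
      ∑ p ∈ (N t).primeFactors \ S, u t p ≤ 1 - δ) with hT2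
  set T3 := T.filter (fun t => C * x < ht t ∧
    ∃ (S : Finset ℕ) (R : ℕ) (l3 : Fin 3), RootD δ S R l3 t ∧
          ((∏ p ∈ S, p : ℕ) : ℝ) ≤ (n : ℝ) ^ σ ∧
          9 * (⌈K * x⌉₊ : ℝ) ≤ δ * ex t R) with hT3
  set T4 := T.filter (fun t => C * x < ht t ∧
    ∃ (S : Finset ℕ) (R : ℕ) (l3 : Fin 3), RootD δ S R l3 t ∧
          ((∏ p ∈ S, p : ℕ) : ℝ) ≤ (n : ℝ) ^ σ ∧ g0 ≤ ex t R ∧
          δ * ex t R ≤ 9 * (⌈K * x⌉₊ : ℝ)) with hT4
  have hht2 : ∀ t, C * x < ht t → 200 / δ ^ 2 ≤ ht t := by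
    intro t ht'
    have : x ≤ C * x := by nlinarith
    linarith
  have hcover : T ⊆ T1 ∪ (T2 ∪ (T3 ∪ T4)) := by
    intro t ht'
    obtain ⟨hI, hrd, hht, hsm⟩ := hT t ht'
    simp only [Finset.mem_union, hT1, hT2, hT3, hT4, Finset.mem_filter, ht', true_and]
    by_cases c1 : ht t ≤ C * x
    · left; exact c1
    right
    push Not at c1
    have hht2' := hht2 t c1
    have hbig : 2 ≤ ht t := by
      refine le_trans ?_ hht2'
      rw [le_div_iff₀ (by positivity)]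
      nlinarith
    obtain ⟨S, hS, hSw, hSa⟩ := coverSm k hδk hI hbig
    have hprime : ∀ p ∈ (N t).primeFactors, p.Prime := fun p hp =>
      Nat.prime_of_mem_primeFactors hp
    have hlogprod : ∀ Q ⊆ (N t).primeFactors, Real.log ((∏ p ∈ Q, p : ℕ) : ℝ) =
        ∑ p ∈ Q, Real.log (p : ℝ) := by
      intro Q hQ
      push_cast
      exact Real.log_prod (fun p hp => by exact_mod_cast (hprime p (hQ hp)).ne_zero)
    have hprodpos : ∀ Q ⊆ (N t).primeFactors, (0 : ℝ) < ((∏ p ∈ Q, p : ℕ) : ℝ) := by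
      intro Q hQ
      exact_mod_cast Finset.prod_pos (fun p hp => (hprime p (hQ hp)).pos)
    have hLx : ∑ p ∈ (N t).primeFactors, Real.log (p : ℝ) ≤ x := by
      rw [← hlogprod _ (Finset.Subset.refl _)]
      apply Real.log_le_log (hprodpos _ (Finset.Subset.refl _))
      exact_mod_cast hrd
    have ha : Real.log t.1 ≤ η * x := by
      have h7 : (0 : ℝ) < t.1 := by exact_mod_cast hI.1
      calc Real.log t.1 ≤ Real.log ((n : ℝ) ^ η) := Real.log_le_log h7 hsm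
        _ = η * x := Real.log_rpow hn0 η
    have hSn : ((∏ p ∈ S, p : ℕ) : ℝ) ≤ (n : ℝ) ^ σ := by
      rw [← Real.log_le_log_iff (hprodpos S hS) (by positivity), hlogprod S hS,
        Real.log_rpow hn0]
      refine hSw.trans ?_
      have h8 : (1 / 2 + 1 / ((k : ℝ) + 1)) * ∑ p ∈ (N t).primeFactors, Real.log (p : ℝ) ≤
          (1 / 2 + e) * x := mul_le_mul_of_nonneg_left hLx (by positivity)
      rw [hσ]
      calc _ ≤ (1 / 2 + e) * x + 1 / 2 * (η * x) := by linarith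
        _ = ((1 + η) / 2 + e) * x := by ring
    rcases hSa with h7 | ⟨R, l, hRD, huR⟩
    · left
      exact ⟨c1, S, hS, hSn, h7⟩
    · right
      have hRp := hprime R hRD.memR
      have hR0 : (0 : ℝ) < R := by exact_mod_cast hRp.pos
      have hlogR : Real.log R ≤ x := by
        refine le_trans ?_ hLx
        exact Finset.single_le_sum (f := fun p : ℕ => Real.log (p : ℝ))
          (fun p _ => Real.log_natCast_nonneg p) hRD.memR
      have hHt := ht_pos hI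
      have e1 : (ex t R : ℝ) * Real.log R = u t R * ht t := by unfold u; field_simp
      have e2 : δ * ht t ≤ ex t R * x := by
        calc δ * ht t ≤ u t R * ht t := mul_le_mul_of_nonneg_right huR hHt.le
          _ = (ex t R : ℝ) * Real.log R := e1.symm
          _ ≤ ex t R * x := mul_le_mul_of_nonneg_left hlogR (Nat.cast_nonneg _)
      have e3 : ((g0 : ℝ) + 1) * x ≤ ex t R * x := by
        have h8 : ((g0 : ℝ) + 1) * x = δ * (C * x) := by
          rw [hC]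
          field_simp
        rw [h8]
        exact (mul_le_mul_of_nonneg_left c1.le hδ0.le).trans e2
      have e4 : (g0 : ℝ) + 1 ≤ ex t R := le_of_mul_le_mul_right e3 hx0
      have e5 : g0 ≤ ex t R := by
        have : (g0 : ℝ) ≤ ex t R := by linarith
        exact_mod_cast this
      rcases le_total (9 * (⌈K * x⌉₊ : ℝ)) (δ * ex t R) with h8 | h8
      · left
        exact ⟨c1, S, R, l, hRD, hSn, h8⟩
      · right
        exact ⟨c1, S, R, l, hRD, hSn, e5, h8⟩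
  have hcard : (T.card : ℝ) ≤ T1.card + (T2.card + (T3.card + T4.card)) := by
    have a1 := Finset.card_le_card hcover
    have a2 := Finset.card_union_le T1 (T2 ∪ (T3 ∪ T4))
    have a3 := Finset.card_union_le T2 (T3 ∪ T4)
    have a4 := Finset.card_union_le T3 T4
    exact_mod_cast (by omega : T.card ≤ T1.card + (T2.card + (T3.card + T4.card)))
  have hmono : ∀ a : ℝ, a ≤ (1 + η) / 2 + θ + 3 / 4 * ε →
      (n : ℝ) ^ a ≤ (n : ℝ) ^ ((1 + η) / 2 + θ + 3 / 4 * ε) := fun a ha =>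
    Real.rpow_le_rpow_of_exponent_le hn1' ha
  have b1 : (T1.card : ℝ) ≤ (n : ℝ) ^ ((1 + η) / 2 + θ + 3 / 4 * ε) := by
    refine (h4 T1 (fun t ht' => ?_)).trans (hmono _ (by linarith))
    rw [hT1, Finset.mem_filter] at ht'
    exact ⟨(hT t ht'.1).1, (hT t ht'.1).2.1, ht'.2, (hT t ht'.1).2.2.2⟩
  have b2 : (T2.card : ℝ) ≤ (n : ℝ) ^ ((1 + η) / 2 + θ + 3 / 4 * ε) := by
    refine (h3 T2 (fun t ht' => ?_)).trans (hmono _ (by rw [hσ]; linarith))
    rw [hT2, Finset.mem_filter] at ht'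
    obtain ⟨hmT, c1, hS⟩ := ht'
    have hht2' := hht2 t c1
    refine ⟨(hT t hmT).1, (hT t hmT).2.1, (hT t hmT).2.2.1, le_trans ?_ hht2', hS⟩
    rw [div_le_div_iff₀ hδ0 (by positivity)]
    nlinarith
  have b3 : (T3.card : ℝ) ≤ (n : ℝ) ^ ((1 + η) / 2 + θ + 3 / 4 * ε) := by
    refine (h1 T3 (fun t ht' => ?_)).trans (hmono _ (by rw [hσ]; linarith))
    rw [hT3, Finset.mem_filter] at ht'
    obtain ⟨hmT, c1, hS⟩ := ht'
    exact ⟨(hT t hmT).2.1, (hT t hmT).2.2.1, hht2 t c1, hS⟩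
  have b4 : (T4.card : ℝ) ≤ (n : ℝ) ^ ((1 + η) / 2 + θ + 3 / 4 * ε) := by
    refine (h2 T4 (fun t ht' => ?_)).trans (hmono _ (by rw [hσ]; linarith))
    rw [hT4, Finset.mem_filter] at ht'
    obtain ⟨hmT, c1, hS⟩ := ht'
    exact ⟨(hT t hmT).2.1, (hT t hmT).2.2.1, hht2 t c1, hS⟩
  have hsplit : (n : ℝ) ^ ((1 + η) / 2 + θ + ε) =
      (n : ℝ) ^ ((1 + η) / 2 + θ + 3 / 4 * ε) * (n : ℝ) ^ (ε / 4) := by
    rw [← Real.rpow_add hn0]
    congr 1
    ring
  have hE0 : 0 ≤ (n : ℝ) ^ ((1 + η) / 2 + θ + 3 / 4 * ε) := by positivity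
  rw [hsplit]
  calc 2 * (T.card : ℝ) ≤ (n : ℝ) ^ ((1 + η) / 2 + θ + 3 / 4 * ε) * 8 := by linarith
    _ ≤ _ := mul_le_mul_of_nonneg_left h6 hE0

end Pool.Agent.Lib.Pabc8
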